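import Pool.Agent.W_c26d8e_h65.Sets

/-!
# Complete regularity (MP_c26d8e_gt)
-/

namespace CPF

open IM IM.BSet BVM TKF

variable {I : Type} [Idx I] {lam : RP I → Prop}

/-- The space of the points is completely regular. -/
theorem isCR (hl : IsUF lam) {T R P : X hl}
    (hT : IsTau (E hl) (val hl (nA I)) (val hl (nG I)) T)
    (hR : IsReals (E hl) (val hl (omB _)) R P) : IsCR (E hl) (val hl (nA I)) T R P := by
  obtain ⟨L, hL, hP⟩ := hR
  intro x O hxO hO
  obtain ⟨hOA, hO'⟩ := (hT O).1 hO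
  obtain ⟨F, hF, hFA, hFO⟩ := hO' x hxO
  have hxA := hOA x hxO
  obtain ⟨a, haR⟩ := hL.1
  obtain ⟨b, hab⟩ := (hL.2.2.2.2.2.1 a haR).1
  have hbR := (hL.2.1 _ _ hab).2
  have hne : a ≠ b := by
    intro h
    rw [h] at hab
    exact hL.2.2.1 _ hab
  -- the clopen set
  obtain ⟨C, hC⟩ := exists_sep (hl := hl) (Q := fun _ E v => ∀ c, E c (v 1) →
      SameVal E (v 2) (v 3) (v 0) c)
    (by repeat' (with_reducible first | apply SameVal.fo | apply FO.mem | apply FO.imp | apply FO.all))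
    (cons F (cons (val hl (nG I)) (cons x fun _ => x))) (val hl (nA I))
  have hC' : ∀ y, E hl y C ↔ E hl y (val hl (nA I)) ∧ ∀ c, E hl c F →
      SameVal (E hl) (val hl (nG I)) x y c := hC
  have hxC : E hl x C := (hC' x).2 ⟨hxA, fun c hc => sameVal_refl hxA (hFA c hc)⟩
  -- the function
  obtain ⟨f, hf1, hf2⟩ := exists_rel (hl := hl) (Q := fun _ E v => (E (v 0) (v 2) ∧ v 1 = v 3) ∨
      (¬ E (v 0) (v 2) ∧ v 1 = v 4))
    (by repeat' (with_reducible first | apply FO.mem | apply FO.eq | apply FO.and | apply FO.or | apply FO.not))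
    (cons C (cons a (cons b fun _ => a))) (val hl (nA I)) R
  have hf : ∀ y s, App (E hl) f y s ↔ E hl y (val hl (nA I)) ∧ E hl s R ∧
      ((E hl y C ∧ s = a) ∨ (¬ E hl y C ∧ s = b)) := hf2
  have hmap : IsMap (E hl) f (val hl (nA I)) R := by
    refine ⟨hf1, fun y hy => ?_⟩
    by_cases hyC : E hl y C
    · refine ⟨a, (hf y a).2 ⟨hy, haR, Or.inl ⟨hyC, rfl⟩⟩, fun s hs => ?_⟩
      rcases ((hf y s).1 hs).2.2 with h | h
      · exact h.2
      · exact absurd hyC h.1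
    · refine ⟨b, (hf y b).2 ⟨hy, hbR, Or.inr ⟨hyC, rfl⟩⟩, fun s hs => ?_⟩
      rcases ((hf y s).1 hs).2.2 with h | h
      · exact absurd h.1 hyC
      · exact h.2
  refine ⟨f, a, b, ⟨hmap, fun V U _ hU => ?_⟩, haR, hbR, hne, ?_, ?_⟩
  · refine (hT U).2 ⟨fun y hy => ?_, fun y hy => ⟨F, hF, hFA, fun z hz hsame => ?_⟩⟩
    · obtain ⟨s, hs, _⟩ := (hU y).1 hy
      exact ((hf y s).1 hs).1
    · obtain ⟨s, hs, hsV⟩ := (hU y).1 hy
      obtain ⟨hyA, hsR, hcase⟩ := (hf y s).1 hs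
      -- `z` is in `C` if and only if `y` is
      have htr : ∀ u v w c : X hl, SameVal (E hl) (val hl (nG I)) u v c →
          SameVal (E hl) (val hl (nG I)) v w c → SameVal (E hl) (val hl (nG I)) u w c := by
        rintro u v w c ⟨n, h1, h2⟩ ⟨m, h3, h4⟩
        rw [gval_uniq h3 h2] at h4
        exact ⟨n, h1, h4⟩
      have hsym : ∀ u v c : X hl, SameVal (E hl) (val hl (nG I)) u v c →
          SameVal (E hl) (val hl (nG I)) v u c := by
        rintro u v c ⟨n, h1, h2⟩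
        exact ⟨n, h2, h1⟩
      have hiff : E hl z C ↔ E hl y C := by
        constructor
        · intro h
          exact (hC' y).2 ⟨hyA, fun c hc => htr _ _ _ _ (((hC' z).1 h).2 c hc)
            (hsym _ _ _ (hsame c hc))⟩
        · intro h
          exact (hC' z).2 ⟨hz, fun c hc => htr _ _ _ _ (((hC' y).1 h).2 c hc) (hsame c hc)⟩
      refine (hU z).2 ⟨s, (hf z s).2 ⟨hz, hsR, ?_⟩, hsV⟩
      rw [hiff]
      exact hcase
  · exact (hf x a).2 ⟨hxA, haR, Or.inl ⟨hxC, rfl⟩⟩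
  · intro y hy hyO
    refine (hf y b).2 ⟨hy, hbR, Or.inr ⟨fun h => hyO (hFO y hy fun c hc => ?_), rfl⟩⟩
    exact ((hC' y).1 h).2 c hc

end CPF
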