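import Pool.Agent.W_c26d8e_h65.Coord

/-!
# No Lindelöf space between `C_p(X)` and the power of the line (MP_c26d8e_gt)
-/

namespace CPF

open IM IM.BSet BVM TKF

variable {I : Type} [Idx I]

/-- The hypotheses on the names. -/
def Hyp {X : Type*} (E : X → X → Prop) (w A G T R L P Z : X) : Prop :=
  IsTau E A G T ∧ IsLine E w R L ∧ IsOrdTop E R L P ∧ (∀ f, E f Z → IsMap E f A R) ∧
    ∀ f, IsContin E A T R P f → E f Z

theorem Hyp.fo : FO.{0} (fun _ E v => Hyp E (v 0) (v 1) (v 2) (v 3) (v 4) (v 5) (v 6) (v 7)) := by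
  unfold Hyp
  repeat' (with_reducible first | apply IsTau.fo | apply IsLine.fo | apply IsOrdTop.fo | apply IsContin.fo | apply IsMap.fo | apply FO.mem | apply FO.and | apply FO.imp | apply FO.all)

variable {T R L P Z : BSet (RP I)} {r : ℕ → BSet (RP I)} {q : Cond I}

/-- A member of the family `c` of the small open sets around `z`. -/
def Small {X : Type*} (E : X → X → Prop) (A L P Z j z V : X) : Prop :=
  E z V ∧ IsOpenP E P Z V ∧ ∃ x y, E x A ∧ E y A ∧ x ≠ y ∧ Wit E L j V x y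

theorem Small.fo : FO.{0} (fun _ E v => ∃ V, Small E (v 1) (v 2) (v 3) (v 4) (v 5) (v 0) V) := by
  unfold Small
  repeat' (with_reducible first | apply Wit.fo | apply IsOpenP.fo | apply FO.mem | apply FO.eq | apply FO.and | apply FO.not | apply FO.ex)

/-- Every element of `Z` has a small open neighbourhood (forcing). -/
theorem cover_step
    (hr : ∀ (lam : RP I → Prop) (hl : IsUF lam),
      IsLine (E hl) (val hl (omB _)) (val hl R) (val hl L) → SeqOK hl R L r)
    (hq : ∀ (lam : RP I → Prop) (hl : IsUF lam), lam (gen q) →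
      Hyp (E hl) (val hl (omB _)) (val hl (nA I)) (val hl (nG I)) (val hl T) (val hl R) (val hl L)
        (val hl P) (val hl Z))
    {z : BSet (RP I)}
    (hz : ∀ (lam : RP I → Prop) (hl : IsUF lam), lam (gen q) → E hl (val hl z) (val hl Z)) :
    ∃ q' ≤ q, ∀ (lam : RP I → Prop) (hl : IsUF lam), lam (gen q') →
      ∃ V, Small (E hl) (val hl (nA I)) (val hl L) (val hl P) (val hl Z) (val hl (nseq r))
        (val hl z) V := by
  -- the decided values
  have h1 : ∀ x : I, ∃ q' ≤ q, ∃ n : ℕ,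
      Fc q' (fun _ E v => ∃ s, App E (v 1) (v 2) s ∧ Near E (v 3) (v 4) s (v 0))
        (cons (natB n) (ps [z, pnt x, L, nseq r])) := by
    intro x
    refine Fc.index (c := natB)
      (by repeat' (with_reducible first | apply Near.fo | apply App.fo | apply FO.and | apply FO.ex)) ?_
    intro lam hl hlam
    have hyp := hq lam hl hlam
    have hzm := hyp.2.2.2.1 _ (hz lam hl hlam)
    obtain ⟨s, hs, _⟩ := hzm.2 _ (E_nall_c (c := pnt) x)
    obtain ⟨n, hn, hnear⟩ := near_nseq hl hr hyp.2.1 (hzm.mem hs).2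
    exact ⟨n, hn, s, hs, hnear⟩
  choose p hp c hc using h1
  obtain ⟨x, y, hxy, hlt, q', hq'x, hq'y⟩ := pick p c id
  refine ⟨q', hq'x.trans (hp x), fun lam hl hlam => ?_⟩
  have hlamq : lam (gen q) := hl.mono (gen_mono (hq'x.trans (hp x))) hlam
  have hyp := hq lam hl hlamq
  obtain ⟨s, hs, hsn⟩ := hc x lam hl (hl.mono (gen_mono hq'x) hlam)
  obtain ⟨t, ht, htn⟩ := hc y lam hl (hl.mono (gen_mono hq'y) hlam)
  have hs : App (E hl) (val hl z) (val hl (pnt x)) s := hs
  have ht : App (E hl) (val hl z) (val hl (pnt y)) t := ht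
  have hsn : Near (E hl) (val hl L) (val hl (nseq r)) s (val hl (natB (c x))) := hsn
  have htn : Near (E hl) (val hl L) (val hl (nseq r)) t (val hl (natB (c y))) := htn
  rw [← hxy] at htn
  obtain ⟨V, hV1, hV2, hV3⟩ := exists_small hyp.2.1 hyp.2.2.1 hyp.2.2.2.1 (hz lam hl hlamq)
    (E_nall_c (c := pnt) x) (E_nall_c (c := pnt) y) hs ht hsn htn
  refine ⟨V, hV1, hV2, _, _, E_nall_c (c := pnt) x, E_nall_c (c := pnt) y, fun h => ?_, hV3⟩
  have hne : x ≠ y := ne_of_lt hlt
  exact beq_eq_bot_iff.1 (disj_pnt x y hne) lam hl h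

/-- Every element of `Z` has a small open neighbourhood. -/
theorem cover_all
    (hr : ∀ (lam : RP I → Prop) (hl : IsUF lam),
      IsLine (E hl) (val hl (omB _)) (val hl R) (val hl L) → SeqOK hl R L r)
    {lam : RP I → Prop} (hl : IsUF lam)
    (hyp : Hyp (E hl) (val hl (omB _)) (val hl (nA I)) (val hl (nG I)) (val hl T) (val hl R)
      (val hl L) (val hl P) (val hl Z)) {z : X hl} (hz : E hl z (val hl Z)) :
    ∃ V, Small (E hl) (val hl (nA I)) (val hl L) (val hl P) (val hl Z) (val hl (nseq r)) z V := by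
  obtain ⟨z, rfl⟩ := exists_name z
  by_contra hcon
  obtain ⟨q, hq⟩ := Fc.exists_of (P := Cond I) (Q := fun _ E v => Hyp E (v 0) (v 1) (v 2) (v 3)
      (v 4) (v 5) (v 6) (v 7) ∧ E (v 8) (v 7) ∧
      ¬ ∃ V, Small E (v 1) (v 5) (v 6) (v 7) (v 9) (v 8) V)
    (v := ps [omB _, nA I, nG I, T, R, L, P, Z, z, nseq r])
    (by
      refine (Hyp.fo).and ((FO.mem 8 7).and (FO.not ?_))
      unfold Small
      repeat' (with_reducible first | apply Wit.fo | apply IsOpenP.fo | apply FO.mem | apply FO.eq | apply FO.and | apply FO.not | apply FO.ex)) hl ⟨hyp, hz, hcon⟩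
  obtain ⟨q', hq', h⟩ := cover_step (q := q) (z := z) hr (fun lam hl hlam => (hq lam hl hlam).1)
    (fun lam hl hlam => (hq lam hl hlam).2.1)
  refine Fc.false (p := q') fun lam hl hlam => ?_
  exact (hq lam hl (hl.mono (gen_mono hq') hlam)).2.2 (h lam hl hlam)

/-- The data of a countable family of small open sets covering all coordinate functions. -/
def Ctd {X : Type*} (E : X → X → Prop) (w A L j Z c g : X) : Prop :=
  (∀ n x y, App E g n x → App E g n y → x = y) ∧
  (∀ V, E V c → ∃ n, E n w ∧ App E g n V) ∧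
  (∀ V, E V c → ∃ x y, E x A ∧ E y A ∧ x ≠ y ∧ Wit E L j V x y) ∧
  ∀ f, E f Z → ∃ V, E V c ∧ E f V

theorem Ctd.fo : FO.{0} (fun _ E v => Ctd E (v 0) (v 1) (v 5) (v 8) (v 7) (v 9) (v 10)) := by
  unfold Ctd
  repeat' (with_reducible first | apply Wit.fo | apply App.fo | apply FO.mem | apply FO.eq | apply FO.and | apply FO.not | apply FO.imp | apply FO.all | apply FO.ex)

/-- There is no such family. -/
theorem no_ctd
    (hr : ∀ (lam : RP I → Prop) (hl : IsUF lam),
      IsLine (E hl) (val hl (omB _)) (val hl R) (val hl L) → SeqOK hl R L r)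
    {c g : BSet (RP I)}
    (hq : ∀ (lam : RP I → Prop) (hl : IsUF lam), lam (gen q) →
      Hyp (E hl) (val hl (omB _)) (val hl (nA I)) (val hl (nG I)) (val hl T) (val hl R) (val hl L)
        (val hl P) (val hl Z))
    (hc : ∀ (lam : RP I → Prop) (hl : IsUF lam), lam (gen q) →
      Ctd (E hl) (val hl (omB _)) (val hl (nA I)) (val hl L) (val hl (nseq r)) (val hl Z)
        (val hl c) (val hl g)) : False := by
  choose fn hfn using exists_coord (I := I) r
  -- coordinate functions are in `Z`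
  have hfZ : ∀ (a : I) (lam : RP I → Prop) (hl : IsUF lam), lam (gen q) →
      E hl (val hl (fn a)) (val hl Z) := by
    intro a lam hl hlam
    have hyp := hq lam hl hlam
    exact hyp.2.2.2.2 _ ((hfn a lam hl).isContin (nall_sub_line hr hyp.2.1) hyp.1)
  -- names of members of the family
  have h1 : ∀ a : I, ∃ V : BSet (RP I), ∀ (lam : RP I → Prop) (hl : IsUF lam), lam (gen q) →
      E hl (val hl V) (val hl c) ∧ E hl (val hl (fn a)) (val hl V) := by
    intro a
    refine exists_witness (Q := fun _ E v => E (v 0) (v 1) ∧ E (v 2) (v 0))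
      ((FO.mem 0 1).and (FO.mem 2 0)) (ps [c, fn a]) (gen q) ?_
    intro lam hl hlam
    exact (hc lam hl hlam).2.2.2 _ (hfZ a lam hl hlam)
  choose V hV using h1
  have h2 : ∀ a : I, ∃ q' ≤ q, ∃ n : ℕ, Fc q' (fun _ E v => App E (v 1) (v 0) (v 2))
      (cons (natB n) (ps [g, V a])) := by
    intro a
    refine Fc.index (c := natB) (App.fo 1 0 2) ?_
    intro lam hl hlam
    obtain ⟨n, hn, hn'⟩ := (hc lam hl hlam).2.1 _ (hV a lam hl hlam).1
    exact ⟨n, hn, hn'⟩
  choose p1 hp1 n hn using h2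
  have h3 : ∀ a : I, ∃ q' ≤ p1 a, ∃ x : I, Fc q'
      (fun _ E v => ∃ y, E y (v 1) ∧ v 0 ≠ y ∧ Wit E (v 2) (v 3) (v 4) (v 0) y)
      (cons (pnt x) (ps [nA I, L, nseq r, V a])) := by
    intro a
    refine Fc.index (c := pnt)
      (by repeat' (with_reducible first | apply Wit.fo | apply FO.mem | apply FO.eq | apply FO.and | apply FO.not | apply FO.ex)) ?_
    intro lam hl hlam
    have hlam' := hl.mono (gen_mono (hp1 a)) hlam
    obtain ⟨x, y, hx, hy, hne, hw⟩ := (hc lam hl hlam').2.2.1 _ (hV a lam hl hlam').1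
    exact ⟨x, hx, y, hy, hne, hw⟩
  choose p2 hp2 x hx using h3
  have h4 : ∀ a : I, ∃ q' ≤ p2 a, ∃ y : I, Fc q'
      (fun _ E v => v 4 ≠ v 0 ∧ Wit E (v 1) (v 2) (v 3) (v 4) (v 0))
      (cons (pnt y) (ps [L, nseq r, V a, pnt (x a)])) := by
    intro a
    refine Fc.index (c := pnt)
      (by repeat' (with_reducible first | apply Wit.fo | apply FO.mem | apply FO.eq | apply FO.and | apply FO.not)) ?_
    intro lam hl hlam
    obtain ⟨y, hy, hne, hw⟩ := hx a lam hl hlam
    exact ⟨y, hy, hne, hw⟩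
  choose p3 hp3 y hy using h4
  obtain ⟨a, a', hnn, hlt, s, hs, hs'⟩ := pick p3 n fun a => max (x a) (y a)
  refine Fc.false (p := s) fun lam hl hlam => ?_
  have l3 : lam (gen (p3 a)) := hl.mono (gen_mono hs) hlam
  have l2 : lam (gen (p2 a)) := hl.mono (gen_mono (hp3 a)) l3
  have l1 : lam (gen (p1 a)) := hl.mono (gen_mono (hp2 a)) l2
  have l0 : lam (gen q) := hl.mono (gen_mono (hp1 a)) l1
  have l3' : lam (gen (p3 a')) := hl.mono (gen_mono hs') hlam
  have l2' : lam (gen (p2 a')) := hl.mono (gen_mono (hp3 a')) l3'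
  have l1' : lam (gen (p1 a')) := hl.mono (gen_mono (hp2 a')) l2'
  have e1 : App (E hl) (val hl g) (val hl (natB (n a))) (val hl (V a)) := hn a lam hl l1
  have e2 : App (E hl) (val hl g) (val hl (natB (n a'))) (val hl (V a')) := hn a' lam hl l1'
  rw [← hnn] at e2
  have hVV : val hl (V a) = val hl (V a') := (hc lam hl l0).1 _ _ _ e1 e2
  have hmem : E hl (val hl (fn a')) (val hl (V a)) := by
    rw [hVV]
    exact (hV a' lam hl l0).2
  obtain ⟨hne, hw⟩ := hy a lam hl l3
  have hne : val hl (pnt (x a)) ≠ val hl (pnt (y a)) := hne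
  have hw : Wit (E hl) (val hl L) (val hl (nseq r)) (val hl (V a)) (val hl (pnt (x a)))
    (val hl (pnt (y a))) := hw
  have hxa : x a < a' := lt_of_le_of_lt (le_max_left _ _) hlt
  have hya : y a < a' := lt_of_le_of_lt (le_max_right _ _) hlt
  obtain ⟨m, b1, b2, b3, b4, hn1, hn2, hall⟩ := hw
  have f1 := (hfn a' lam hl).app_of (gval_det (hl := hl) hxa)
  have f2 := (hfn a' lam hl).app_of (gval_det (hl := hl) hya)
  obtain ⟨⟨g1, g2⟩, g3, g4⟩ := hall _ _ _ hmem f1 f2
  have k1 := hn1 _ _ (app_nseq (hl := hl) r _) g1 g2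
  have k2 := hn2 _ _ (app_nseq (hl := hl) r _) g3 g4
  have k3 : Idx.e a' (x a) = Idx.e a' (y a) := natB_inj (k1.trans k2.symm)
  have k4 : x a = y a := Idx.e_inj a' hxa.le hya.le k3
  exact hne (by rw [k4])

/-- No set `Z` of maps which contains all continuous functions is Lindelöf. -/
theorem no_lind {lam : RP I → Prop} (hl : IsUF lam) {T R P Z : X hl}
    (hT : IsTau (E hl) (val hl (nA I)) (val hl (nG I)) T)
    (hR : IsReals (E hl) (val hl (omB _)) R P)
    (hZ1 : ∀ f, E hl f Z → IsMap (E hl) f (val hl (nA I)) R)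
    (hZ2 : ∀ f, IsContin (E hl) (val hl (nA I)) T R P f → E hl f Z) :
    ¬ IsLind (E hl) (val hl (omB _)) P Z := by
  intro hLind
  obtain ⟨L, hL, hP⟩ := hR
  obtain ⟨T, rfl⟩ := exists_name T
  obtain ⟨R, rfl⟩ := exists_name R
  obtain ⟨P, rfl⟩ := exists_name P
  obtain ⟨Z, rfl⟩ := exists_name Z
  obtain ⟨L, rfl⟩ := exists_name L
  obtain ⟨r, hr⟩ := exists_cofinal R L
  have hyp : Hyp (E hl) (val hl (omB _)) (val hl (nA I)) (val hl (nG I)) (val hl T) (val hl R)
      (val hl L) (val hl P) (val hl Z) := ⟨hT, hL, hP, hZ1, hZ2⟩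
  -- the family of all small open sets
  obtain ⟨PZ, hPZ⟩ := ax_powerset (val hl Z)
  obtain ⟨c, hc⟩ := exists_sep (hl := hl) (Q := fun _ E v => IsOpenP E (v 3) (v 4) (v 0) ∧
      ∃ x y, E x (v 1) ∧ E y (v 1) ∧ x ≠ y ∧ Wit E (v 2) (v 5) (v 0) x y)
    (by repeat' (with_reducible first | apply Wit.fo | apply IsOpenP.fo | apply FO.mem | apply FO.eq | apply FO.and | apply FO.not | apply FO.ex))
    (fun n => val hl (ps [nA I, L, P, Z, nseq r] n)) PZ
  have hc' : ∀ V, E hl V c ↔ E hl V PZ ∧ IsOpenP (E hl) (val hl P) (val hl Z) V ∧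
      ∃ x y, E hl x (val hl (nA I)) ∧ E hl y (val hl (nA I)) ∧ x ≠ y ∧
        Wit (E hl) (val hl L) (val hl (nseq r)) V x y := hc
  obtain ⟨c', hc'c, ⟨g, hg1, hg2⟩, hcov⟩ := hLind c (fun O hO => ((hc' O).1 hO).2.1) (by
    intro z hz
    obtain ⟨V, hV1, hV2, hV3⟩ := cover_all hr hl hyp hz
    exact ⟨V, (hc' V).2 ⟨(hPZ V).2 hV2.1, hV2, hV3⟩, hV1⟩)
  obtain ⟨c', rfl⟩ := exists_name c'
  obtain ⟨g, rfl⟩ := exists_name g
  have hctd : Ctd (E hl) (val hl (omB _)) (val hl (nA I)) (val hl L) (val hl (nseq r)) (val hl Z)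
      (val hl c') (val hl g) :=
    ⟨hg1, hg2, fun V hV => ((hc' V).1 (hc'c V hV)).2.2, hcov⟩
  obtain ⟨q, hq⟩ := Fc.exists_of (P := Cond I) (Q := fun _ E v => Hyp E (v 0) (v 1) (v 2) (v 3)
      (v 4) (v 5) (v 6) (v 7) ∧ Ctd E (v 0) (v 1) (v 5) (v 8) (v 7) (v 9) (v 10))
    (v := ps [omB _, nA I, nG I, T, R, L, P, Z, nseq r, c', g])
    (Hyp.fo.and Ctd.fo) hl ⟨hyp, hctd⟩
  exact no_ctd (q := q) hr (fun lam hl hlam => (hq lam hl hlam).1)
    (fun lam hl hlam => (hq lam hl hlam).2)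

end CPF
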