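import Pool.Agent.W_c26d8e_h65.Sets
import Mathlib.Logic.Denumerable

/-!
# The real line of the model exists: Dedekind cuts (MP_c26d8e_gt)
-/

universe u

namespace CPF

open IM IM.BSet BVM TKF

variable {D : Type u} [CompleteBooleanAlgebra D]

/-- The enumeration of the rational numbers. -/
noncomputable def qn (n : ℕ) : ℚ := (Denumerable.eqv ℚ).symm n

theorem qn_inj {m n : ℕ} (h : qn m = qn n) : m = n := (Denumerable.eqv ℚ).symm.injective h

theorem qn_surj (x : ℚ) : ∃ n, qn n = x := (Denumerable.eqv ℚ).symm.surjective x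

open Classical in
/-- The name of the order of the rational numbers, as an order on `ω`. -/
noncomputable def nQ (D : Type u) [CompleteBooleanAlgebra D] : BSet D :=
  nrel natB natB fun m n => if qn m < qn n then ⊤ else ⊥

variable {lam : D → Prop} {hl : IsUF lam}

theorem nQ_std {m n : ℕ} :
    App (E hl) (val hl (nQ D)) (val hl (natB m)) (val hl (natB n)) ↔ qn m < qn n := by
  unfold nQ
  rw [app_nrel disj_natB disj_natB]
  by_cases h : qn m < qn n
  · simp only [h, if_true, iff_true]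
    exact hl.top
  · simp only [h, if_false, iff_false]
    exact hl.bot

theorem nQ_mem {x y : X hl} (h : App (E hl) (val hl (nQ D)) x y) :
    E hl x (val hl (omB D)) ∧ E hl y (val hl (omB D)) := by
  obtain ⟨p, hp, hpf⟩ := h
  unfold nQ nrel at hpf
  refine all_nsub (Q := fun _ E v => ∀ x y, IsPair E (v 0) x y → E x (v 1) ∧ E y (v 1))
    (v := ps [omB D])
    (by repeat' (with_reducible first | apply IsPair.fo | apply FO.mem | apply FO.and | apply FO.imp | apply FO.all))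
    ⊤ ?_ hl hl.top hpf x y hp
  intro i lam hl _ _ x y hxy
  have h1 : IsPair (E hl) (val hl (prB (natB i.1) (natB i.2))) (val hl (natB i.1))
    (val hl (natB i.2)) := isPair_val.2 rfl
  obtain ⟨h2, h3⟩ := isPair_inj hxy h1
  rw [h2, h3]
  exact ⟨E_nall_c i.1, E_nall_c i.2⟩

theorem nQ_irr (x : X hl) : ¬ App (E hl) (val hl (nQ D)) x x := by
  intro h
  refine all_nat (Q := fun _ E v => ¬ App E (v 1) (v 0) (v 0)) (v := ps [nQ D])
    (by repeat' (with_reducible first | apply App.fo | apply FO.not)) ⊤ ?_ hl hl.top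
    (nQ_mem h).1 h
  intro n lam hl _ h
  exact lt_irrefl _ (nQ_std.1 h)

theorem nQ_trans {x y z : X hl} (h : App (E hl) (val hl (nQ D)) x y)
    (h' : App (E hl) (val hl (nQ D)) y z) : App (E hl) (val hl (nQ D)) x z := by
  refine all_nat (Q := fun _ E v => ∀ y z, E y (v 2) → E z (v 2) → App E (v 1) (v 0) y →
      App E (v 1) y z → App E (v 1) (v 0) z) (v := ps [nQ D, omB D])
    (by repeat' (with_reducible first | apply App.fo | apply FO.mem | apply FO.imp | apply FO.all))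
    ⊤ ?_ hl hl.top (nQ_mem h).1 y z (nQ_mem h).2 (nQ_mem h').2 h h'
  intro i lam hl _ y z hy hz h h'
  refine all_nat (Q := fun _ E v => ∀ z, E z (v 2) → App E (v 1) (v 3) (v 0) →
      App E (v 1) (v 0) z → App E (v 1) (v 3) z) (v := ps [nQ D, omB D, natB i])
    (by repeat' (with_reducible first | apply App.fo | apply FO.mem | apply FO.imp | apply FO.all))
    ⊤ ?_ hl hl.top hy z hz h h'
  intro j lam hl _ z hz h h'
  refine all_nat (Q := fun _ E v => App E (v 1) (v 2) (v 3) →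
      App E (v 1) (v 3) (v 0) → App E (v 1) (v 2) (v 0)) (v := ps [nQ D, natB i, natB j])
    (by repeat' (with_reducible first | apply App.fo | apply FO.imp))
    ⊤ ?_ hl hl.top hz h h'
  intro k lam hl _ h h'
  exact nQ_std.2 ((nQ_std.1 h).trans (nQ_std.1 h'))

theorem nQ_tot {x y : X hl} (hx : E hl x (val hl (omB D))) (hy : E hl y (val hl (omB D))) :
    x = y ∨ App (E hl) (val hl (nQ D)) x y ∨ App (E hl) (val hl (nQ D)) y x := by
  refine all_nat (Q := fun _ E v => ∀ y, E y (v 2) → v 0 = y ∨ App E (v 1) (v 0) y ∨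
      App E (v 1) y (v 0)) (v := ps [nQ D, omB D])
    (by repeat' (with_reducible first | apply App.fo | apply FO.mem | apply FO.eq | apply FO.or | apply FO.imp | apply FO.all))
    ⊤ ?_ hl hl.top hx y hy
  intro i lam hl _ y hy
  refine all_nat (Q := fun _ E v => v 2 = v 0 ∨ App E (v 1) (v 2) (v 0) ∨
      App E (v 1) (v 0) (v 2)) (v := ps [nQ D, natB i])
    (by repeat' (with_reducible first | apply App.fo | apply FO.eq | apply FO.or))
    ⊤ ?_ hl hl.top hy
  intro j lam hl _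
  rcases lt_trichotomy (qn i) (qn j) with h | h | h
  · exact Or.inr (Or.inl (nQ_std.2 h))
  · exact Or.inl (by
      change val hl (natB i) = val hl (natB j)
      rw [qn_inj h])
  · exact Or.inr (Or.inr (nQ_std.2 h))

theorem nQ_ends {x : X hl} (hx : E hl x (val hl (omB D))) :
    (∃ y, App (E hl) (val hl (nQ D)) x y) ∧ ∃ y, App (E hl) (val hl (nQ D)) y x := by
  refine all_nat (Q := fun _ E v => (∃ y, App E (v 1) (v 0) y) ∧ ∃ y, App E (v 1) y (v 0))
    (v := ps [nQ D])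
    (by repeat' (with_reducible first | apply App.fo | apply FO.and | apply FO.ex))
    ⊤ ?_ hl hl.top hx
  intro i lam hl _
  obtain ⟨j, hj⟩ := qn_surj (qn i + 1)
  obtain ⟨k, hk⟩ := qn_surj (qn i - 1)
  exact ⟨⟨val hl (natB j), nQ_std.2 (by rw [hj]; linarith)⟩,
    ⟨val hl (natB k), nQ_std.2 (by rw [hk]; linarith)⟩⟩

theorem nQ_dense {x y : X hl} (h : App (E hl) (val hl (nQ D)) x y) :
    ∃ z, App (E hl) (val hl (nQ D)) x z ∧ App (E hl) (val hl (nQ D)) z y := by
  refine all_nat (Q := fun _ E v => ∀ y, E y (v 2) → App E (v 1) (v 0) y →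
      ∃ z, App E (v 1) (v 0) z ∧ App E (v 1) z y) (v := ps [nQ D, omB D])
    (by repeat' (with_reducible first | apply App.fo | apply FO.mem | apply FO.and | apply FO.imp | apply FO.all | apply FO.ex))
    ⊤ ?_ hl hl.top (nQ_mem h).1 y (nQ_mem h).2 h
  intro i lam hl _ y hy h
  refine all_nat (Q := fun _ E v => App E (v 1) (v 2) (v 0) →
      ∃ z, App E (v 1) (v 2) z ∧ App E (v 1) z (v 0)) (v := ps [nQ D, natB i])
    (by repeat' (with_reducible first | apply App.fo | apply FO.and | apply FO.imp | apply FO.ex))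
    ⊤ ?_ hl hl.top hy h
  intro j lam hl _ h
  have h1 := nQ_std.1 h
  obtain ⟨k, hk⟩ := qn_surj ((qn i + qn j) / 2)
  exact ⟨val hl (natB k), nQ_std.2 (by rw [hk]; linarith), nQ_std.2 (by rw [hk]; linarith)⟩

/-- Dedekind cuts of the order `o` on `w`. -/
def IsCut {X : Type*} (E : X → X → Prop) (w o s : X) : Prop :=
  Sub E s w ∧ (∃ x, E x s) ∧ (∃ y, E y w ∧ ¬ E y s) ∧
    (∀ x y, E x s → App E o y x → E y s) ∧ ∀ x, E x s → ∃ y, E y s ∧ App E o x y

theorem IsCut.fo (i j k : ℕ) : FO.{u} (fun _ E v => IsCut E (v i) (v j) (v k)) := by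
  unfold IsCut
  repeat' (with_reducible first | apply Sub.fo | apply App.fo | apply FO.mem | apply FO.and | apply FO.not | apply FO.imp | apply FO.all | apply FO.ex)

section cuts

variable {s t : X hl}

/-- Elements of a cut are below the elements outside. -/
theorem IsCut.lt_of (hs : IsCut (E hl) (val hl (omB D)) (val hl (nQ D)) s) {x y : X hl}
    (hx : E hl x s) (hy : E hl y (val hl (omB D))) (hys : ¬ E hl y s) :
    App (E hl) (val hl (nQ D)) x y := by
  rcases nQ_tot (hs.1 x hx) hy with h | h | h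
  · rw [← h] at hys
    exact absurd hx hys
  · exact h
  · exact absurd (hs.2.2.2.1 x y hx h) hys

/-- Cuts are comparable. -/
theorem IsCut.sub_or (hs : IsCut (E hl) (val hl (omB D)) (val hl (nQ D)) s)
    (ht : IsCut (E hl) (val hl (omB D)) (val hl (nQ D)) t) :
    Sub (E hl) s t ∨ Sub (E hl) t s := by
  by_cases h : Sub (E hl) s t
  · exact Or.inl h
  · right
    unfold TKF.Sub at h
    push Not at h
    obtain ⟨q, hq, hqt⟩ := h
    intro x hx
    exact hs.2.2.2.1 q x hq (ht.lt_of hx (hs.1 q hq) hqt)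

/-- The principal cut. -/
theorem exists_princ {y : X hl} (hy : E hl y (val hl (omB D))) :
    ∃ c, IsCut (E hl) (val hl (omB D)) (val hl (nQ D)) c ∧
      ∀ x, E hl x c ↔ App (E hl) (val hl (nQ D)) x y := by
  obtain ⟨c, hc⟩ := exists_sep (hl := hl) (Q := fun _ E v => App E (v 1) (v 0) (v 2))
    (App.fo 1 0 2) (cons (val hl (nQ D)) (cons y fun _ => y)) (val hl (omB D))
  have hc' : ∀ x, E hl x c ↔ App (E hl) (val hl (nQ D)) x y := fun x =>
    ⟨fun h => ((hc x).1 h).2, fun h => (hc x).2 ⟨(nQ_mem h).1, h⟩⟩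
  refine ⟨c, ⟨fun x hx => ((hc x).1 hx).1, ?_, ?_, ?_, ?_⟩, hc'⟩
  · obtain ⟨x, hx⟩ := (nQ_ends hy).2
    exact ⟨x, (hc' x).2 hx⟩
  · exact ⟨y, hy, fun h => nQ_irr y ((hc' y).1 h)⟩
  · intro x z hx hz
    exact (hc' z).2 (nQ_trans hz ((hc' x).1 hx))
  · intro x hx
    obtain ⟨z, h1, h2⟩ := nQ_dense ((hc' x).1 hx)
    exact ⟨z, (hc' z).2 h2, h1⟩

end cuts

/-- The set of all subsets with a first-order property. -/
theorem exists_subsets {Q : ∀ X : Type (u + 1), (X → X → Prop) → (ℕ → X) → Prop} (hQ : FO Q)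
    (v : ℕ → X hl) (a : X hl) :
    ∃ b, ∀ x, E hl x b ↔ Sub (E hl) x a ∧ Q (X hl) (E hl) (cons x v) := by
  obtain ⟨P, hP⟩ := ax_powerset a
  obtain ⟨b, hb⟩ := exists_sep (hl := hl) hQ v P
  exact ⟨b, fun x => by rw [hb, hP]; rfl⟩

/-- The real line exists in the quotient. -/
theorem exists_line (D : Type u) [CompleteBooleanAlgebra D] {lam : D → Prop} (hl : IsUF lam) :
    ∃ R L, IsLine (E hl) (val hl (omB D)) R L := by
  obtain ⟨R, hR⟩ := exists_subsets (hl := hl) (Q := fun _ E v => IsCut E (v 1) (v 2) (v 0))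
    (IsCut.fo 1 2 0) (cons (val hl (omB D)) (cons (val hl (nQ D)) fun _ => val hl (omB D)))
    (val hl (omB D))
  have hR' : ∀ s, E hl s R ↔ IsCut (E hl) (val hl (omB D)) (val hl (nQ D)) s := fun s =>
    ⟨fun h => ((hR s).1 h).2, fun h => (hR s).2 ⟨h.1, h⟩⟩
  obtain ⟨L, hL1, hL2⟩ := exists_rel (hl := hl) (Q := fun _ E v => Sub E (v 0) (v 1) ∧ v 0 ≠ v 1)
    ((Sub.fo 0 1).and (FO.eq 0 1).not) (fun _ => val hl (omB D)) R R
  have hL : ∀ s t, App (E hl) L s t ↔ E hl s R ∧ E hl t R ∧ Sub (E hl) s t ∧ s ≠ t := hL2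
  refine ⟨R, L, ?_, ?_, ?_, ?_, ?_, ?_, ?_, ?_⟩
  · obtain ⟨c, hc, _⟩ := exists_princ (hl := hl) (E_nall_c (c := natB) 0)
    exact ⟨c, (hR' c).2 hc⟩
  · intro x y h
    exact ⟨((hL x y).1 h).1, ((hL x y).1 h).2.1⟩
  · intro x h
    exact ((hL x x).1 h).2.2.2 rfl
  · intro x y z h h'
    obtain ⟨hx, hy, hxy, hne⟩ := (hL x y).1 h
    obtain ⟨_, hz, hyz, _⟩ := (hL y z).1 h'
    refine (hL x z).2 ⟨hx, hz, fun t ht => hyz t (hxy t ht), ?_⟩
    rintro rfl
    exact hne (Sub.antisymm hxy hyz)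
  · intro x y hx hy
    by_cases hxy : x = y
    · exact Or.inl hxy
    · rcases ((hR' x).1 hx).sub_or ((hR' y).1 hy) with h | h
      · exact Or.inr (Or.inl ((hL x y).2 ⟨hx, hy, h, hxy⟩))
      · exact Or.inr (Or.inr ((hL y x).2 ⟨hy, hx, h, fun h' => hxy h'.symm⟩))
  · intro s hs
    have hcs := (hR' s).1 hs
    constructor
    · obtain ⟨y, hy, hys⟩ := hcs.2.2.1
      obtain ⟨z, hz⟩ := (nQ_ends hy).1
      obtain ⟨c, hc, hc'⟩ := exists_princ (hl := hl) (nQ_mem hz).2
      refine ⟨c, (hL s c).2 ⟨hs, (hR' c).2 hc, fun x hx => (hc' x).2 ?_, ?_⟩⟩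
      · exact nQ_trans (hcs.lt_of hx hy hys) hz
      · intro h
        apply hys
        rw [h]
        exact (hc' y).2 hz
    · obtain ⟨x, hx⟩ := hcs.2.1
      obtain ⟨c, hc, hc'⟩ := exists_princ (hl := hl) (hcs.1 x hx)
      refine ⟨c, (hL c s).2 ⟨(hR' c).2 hc, hs, fun y hy => ?_, ?_⟩⟩
      · exact hcs.2.2.2.1 x y hx ((hc' y).1 hy)
      · intro h
        rw [← h] at hx
        exact nQ_irr x ((hc' x).1 hx)
  · obtain ⟨Q, hQ⟩ := exists_sep (hl := hl) (Q := fun _ E v => ∃ y, E y (v 1) ∧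
        ∀ x, E x (v 0) ↔ App E (v 2) x y)
      (by repeat' (with_reducible first | apply App.fo | apply FO.mem | apply FO.and | apply FO.iff | apply FO.all | apply FO.ex))
      (cons (val hl (omB D)) (cons (val hl (nQ D)) fun _ => val hl (omB D))) R
    have hQ' : ∀ c, E hl c Q ↔ E hl c R ∧ ∃ y, E hl y (val hl (omB D)) ∧
        ∀ x, E hl x c ↔ App (E hl) (val hl (nQ D)) x y := hQ
    obtain ⟨g, _, hg⟩ := exists_rel (hl := hl) (Q := fun _ E v => ∀ x, E x (v 1) ↔
        App E (v 2) x (v 0))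
      (by repeat' (with_reducible first | apply App.fo | apply FO.mem | apply FO.iff | apply FO.all))
      (fun _ => val hl (nQ D)) (val hl (omB D)) Q
    have hg' : ∀ n c, App (E hl) g n c ↔ E hl n (val hl (omB D)) ∧ E hl c Q ∧
        ∀ x, E hl x c ↔ App (E hl) (val hl (nQ D)) x n := hg
    refine ⟨Q, fun c hc => ((hQ' c).1 hc).1, ⟨g, ?_, ?_⟩, ?_⟩
    · intro n c c' h h'
      exact ext_E fun x => (((hg' n c).1 h).2.2 x).trans (((hg' n c').1 h').2.2 x).symm
    · intro c hc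
      obtain ⟨_, y, hy, hy'⟩ := (hQ' c).1 hc
      exact ⟨y, hy, (hg' y c).2 ⟨hy, hc, hy'⟩⟩
    · intro s t hst
      obtain ⟨hs, ht, hsub, hne⟩ := (hL s t).1 hst
      have hcs := (hR' s).1 hs
      have hct := (hR' t).1 ht
      have hex : ∃ q, E hl q t ∧ ¬ E hl q s := by
        by_contra hcon
        push Not at hcon
        exact hne (Sub.antisymm hsub hcon)
      obtain ⟨q, hqt, hqs⟩ := hex
      obtain ⟨q', hq't, hqq'⟩ := hct.2.2.2.2 q hqt
      obtain ⟨c, hc, hc'⟩ := exists_princ (hl := hl) (hct.1 q' hq't)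
      have hcR := (hR' c).2 hc
      refine ⟨c, (hQ' c).2 ⟨hcR, q', hct.1 q' hq't, hc'⟩, (hL s c).2 ⟨hs, hcR, fun x hx => ?_, ?_⟩,
        (hL c t).2 ⟨hcR, ht, fun x hx => ?_, ?_⟩⟩
      · exact (hc' x).2 (nQ_trans (hcs.lt_of hx (hct.1 q hqt) hqs) hqq')
      · intro h
        apply hqs
        rw [h]
        exact (hc' q).2 hqq'
      · exact hct.2.2.2.1 q' x hq't ((hc' x).1 hx)
      · intro h
        rw [← h] at hq't
        exact nQ_irr q' ((hc' q').1 hq't)
  · intro S hS ⟨s0, hs0⟩ ⟨b0, hb0, hub⟩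
    have hsub : ∀ b, E hl b R → (∀ x, E hl x S → ¬ App (E hl) L b x) → ∀ s, E hl s S →
        Sub (E hl) s b := by
      intro b hb hub s hs
      have hsR := hS s hs
      rcases ((hR' s).1 hsR).sub_or ((hR' b).1 hb) with h | h
      · exact h
      · by_cases hbs : b = s
        · rw [hbs]
          exact fun x hx => hx
        · exact absurd ((hL b s).2 ⟨hb, hsR, h, hbs⟩) (hub s hs)
    obtain ⟨c, hc⟩ := exists_sep (hl := hl) (Q := fun _ E v => ∃ s, E s (v 1) ∧ E (v 0) s)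
      (by repeat' (with_reducible first | apply FO.mem | apply FO.and | apply FO.ex))
      (fun _ => S) (val hl (omB D))
    have hc' : ∀ x, E hl x c ↔ ∃ s, E hl s S ∧ E hl x s := fun x =>
      ⟨fun h => ((hc x).1 h).2, fun ⟨s, hs, hx⟩ =>
        (hc x).2 ⟨((hR' s).1 (hS s hs)).1 x hx, s, hs, hx⟩⟩
    have hcR : E hl c R := by
      rw [hR']
      refine ⟨fun x hx => ((hc x).1 hx).1, ?_, ?_, ?_, ?_⟩
      · obtain ⟨x, hx⟩ := ((hR' s0).1 (hS s0 hs0)).2.1
        exact ⟨x, (hc' x).2 ⟨s0, hs0, hx⟩⟩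
      · obtain ⟨y, hy, hyb⟩ := ((hR' b0).1 hb0).2.2.1
        refine ⟨y, hy, fun h => ?_⟩
        obtain ⟨s, hs, hys⟩ := (hc' y).1 h
        exact hyb (hsub b0 hb0 hub s hs y hys)
      · intro x y hx hyx
        obtain ⟨s, hs, hxs⟩ := (hc' x).1 hx
        exact (hc' y).2 ⟨s, hs, ((hR' s).1 (hS s hs)).2.2.2.1 x y hxs hyx⟩
      · intro x hx
        obtain ⟨s, hs, hxs⟩ := (hc' x).1 hx
        obtain ⟨y, hy, hxy⟩ := ((hR' s).1 (hS s hs)).2.2.2.2 x hxs
        exact ⟨y, (hc' y).2 ⟨s, hs, hy⟩, hxy⟩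
    refine ⟨c, hcR, fun s hs h => ?_, fun b hb hub' h => ?_⟩
    · obtain ⟨_, _, h1, h2⟩ := (hL c s).1 h
      exact h2 (Sub.antisymm h1 fun x hx => (hc' x).2 ⟨s, hs, hx⟩)
    · obtain ⟨_, _, h1, h2⟩ := (hL b c).1 h
      refine h2 (Sub.antisymm h1 fun x hx => ?_)
      obtain ⟨s, hs, hxs⟩ := (hc' x).1 hx
      exact hsub b hb hub' s hs x hxs

/-- A copy of the real line exists in the quotient. -/
theorem exists_reals (D : Type u) [CompleteBooleanAlgebra D] {lam : D → Prop} (hl : IsUF lam) :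
    ∃ R ρ, IsReals (E hl) (val hl (omB D)) R ρ := by
  obtain ⟨R, L, hRL⟩ := exists_line D hl
  obtain ⟨ρ, hρ⟩ := exists_subsets (hl := hl) (Q := fun _ E v => ∀ y, E y (v 0) →
      ∃ l u, App E (v 1) l y ∧ App E (v 1) y u ∧ ∀ z, App E (v 1) l z → App E (v 1) z u → E z (v 0))
    (by repeat' (with_reducible first | apply App.fo | apply FO.mem | apply FO.and | apply FO.imp | apply FO.all | apply FO.ex))
    (fun _ => L) R
  exact ⟨R, ρ, L, hRL, hρ⟩

end CPF
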