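import Pool.Agent.W_c26d8e_h65.Sets

/-!
# The coordinate functions and small open sets of functions (MP_c26d8e_gt)
-/

namespace CPF

open IM IM.BSet BVM TKF

variable {I : Type} [Idx I]

/-- `f` is the function `x ↦ j(G(x, a))` from `A` to `S`. -/
def IsCoord {X : Type*} (E : X → X → Prop) (A S G j a f : X) : Prop :=
  (∀ p, E p f → ∃ x y, IsPair E p x y ∧ E x A ∧ E y S) ∧
  ∀ x y, App E f x y ↔ E x A ∧ E y S ∧ ∃ n, GVal E G x a n ∧ App E j n y

/-- Names of the coordinate functions. -/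
theorem exists_coord (r : ℕ → BSet (RP I)) (a : I) : ∃ f : BSet (RP I),
    ∀ (lam : RP I → Prop) (hl : IsUF lam), IsCoord (E hl) (val hl (nA I)) (val hl (nall r))
      (val hl (nG I)) (val hl (nseq r)) (val hl (pnt a)) (val hl f) := by
  obtain ⟨f, hf⟩ := exists_witness
    (Q := fun _ E v => IsCoord E (v 1) (v 2) (v 3) (v 4) (v 5) (v 0))
    (by
      unfold IsCoord
      repeat' (with_reducible first | apply GVal.fo | apply App.fo | apply IsPair.fo | apply FO.mem | apply FO.and | apply FO.iff | apply FO.imp | apply FO.all | apply FO.ex))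
    (ps [nA I, nall r, nG I, nseq r, pnt a]) ⊤ (by
      intro lam hl _
      obtain ⟨f, hf1, hf2⟩ := exists_rel (hl := hl)
        (Q := fun _ E v => ∃ n, GVal E (v 2) (v 0) (v 3) n ∧ App E (v 4) n (v 1))
        (by repeat' (with_reducible first | apply GVal.fo | apply App.fo | apply FO.and | apply FO.ex))
        (fun n => val hl (ps [nG I, pnt a, nseq r] n)) (val hl (nA I)) (val hl (nall r))
      exact ⟨f, hf1, hf2⟩)
  exact ⟨f, fun lam hl => hf lam hl hl.top⟩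

section

variable {lam : RP I → Prop} {hl : IsUF lam}

/-- The elements of the sequence are in the line. -/
theorem nall_sub_line {R L : BSet (RP I)} {r : ℕ → BSet (RP I)}
    (hr : ∀ (lam : RP I → Prop) (hl : IsUF lam),
      IsLine (E hl) (val hl (omB _)) (val hl R) (val hl L) → SeqOK hl R L r)
    (hline : IsLine (E hl) (val hl (omB _)) (val hl R) (val hl L)) :
    Sub (E hl) (val hl (nall r)) (val hl R) := by
  intro z hz
  refine all_nall (Q := fun _ E v => E (v 0) (v 1)) (v := ps [R]) (FO.mem 0 1)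
    (tvq (IsLine.fo 0 1 2) (ps [omB _, R, L])) ?_ hl ((tvq_iff _ _ hl).2 hline) hz
  intro n lam hl hlam
  have hline : IsLine (E hl) (val hl (omB _)) (val hl R) (val hl L) := (tvq_iff _ _ hl).1 hlam
  exact (hline.2.1 _ _ ((hr lam hl hline).1 n)).1

theorem IsCoord.app_of {r : ℕ → BSet (RP I)} {a : I} {f : X hl}
    (hf : IsCoord (E hl) (val hl (nA I)) (val hl (nall r)) (val hl (nG I)) (val hl (nseq r))
      (val hl (pnt a)) f) {z : I} {n : ℕ}
    (h : GVal (E hl) (val hl (nG I)) (val hl (pnt z)) (val hl (pnt a)) (val hl (natB n))) :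
    App (E hl) f (val hl (pnt z)) (val hl (r n)) :=
  (hf.2 _ _).2 ⟨E_nall_c z, E_nall_c n, val hl (natB n), h, app_nseq r n⟩

/-- Coordinate functions are maps. -/
theorem IsCoord.isMap {r : ℕ → BSet (RP I)} {a : I} {f : X hl}
    (hf : IsCoord (E hl) (val hl (nA I)) (val hl (nall r)) (val hl (nG I)) (val hl (nseq r))
      (val hl (pnt a)) f) {R : X hl} (hR : Sub (E hl) (val hl (nall r)) R) :
    IsMap (E hl) f (val hl (nA I)) R := by
  constructor
  · intro p hp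
    obtain ⟨x, y, hxy, hx, hy⟩ := hf.1 p hp
    exact ⟨x, y, hxy, hx, hR y hy⟩
  · intro x hx
    obtain ⟨n, hn, hg⟩ := gval_total (hl := hl) hx (E_nall_c (c := pnt) a)
    obtain ⟨y, hy, _⟩ := (isMap_nseq (hl := hl) r).2 n hn
    have hyS := ((isMap_nseq (hl := hl) r).mem hy).2
    refine ⟨y, (hf.2 x y).2 ⟨hx, hyS, n, hg, hy⟩, fun y' hy' => ?_⟩
    obtain ⟨_, _, n', hg', hy''⟩ := (hf.2 x y').1 hy'
    rw [gval_uniq hg' hg] at hy''
    exact (isMap_nseq (hl := hl) r).uniq hy'' hy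

/-- Coordinate functions are continuous. -/
theorem IsCoord.isContin {r : ℕ → BSet (RP I)} {a : I} {f : X hl}
    (hf : IsCoord (E hl) (val hl (nA I)) (val hl (nall r)) (val hl (nG I)) (val hl (nseq r))
      (val hl (pnt a)) f) {R T P : X hl} (hR : Sub (E hl) (val hl (nall r)) R)
    (hT : IsTau (E hl) (val hl (nA I)) (val hl (nG I)) T) :
    IsContin (E hl) (val hl (nA I)) T R P f := by
  refine ⟨hf.isMap hR, fun V O _ hO => (hT O).2 ⟨fun x hx => ?_, fun x hx => ?_⟩⟩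
  · obtain ⟨y, hy, _⟩ := (hO x).1 hx
    exact ((hf.2 x y).1 hy).1
  · obtain ⟨F, hF, hF'⟩ := exists_sg (hl := hl) (val hl (pnt a))
    refine ⟨F, hF, fun y hy => ?_, fun y hy hsame => ?_⟩
    · rw [(hF' y).1 hy]
      exact E_nall_c (c := pnt) a
    · obtain ⟨s, hs, hsV⟩ := (hO x).1 hx
      obtain ⟨_, hsS, n, hn, hns⟩ := (hf.2 x s).1 hs
      obtain ⟨m, hm, hm'⟩ := hsame _ ((hF' _).2 rfl)
      rw [gval_uniq hm hn] at hm'
      exact (hO y).2 ⟨s, (hf.2 y s).2 ⟨hy, hsS, n, hm', hns⟩, hsV⟩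

/-- `V` is small: at two points its functions take values near one and the same element of the
sequence `j`. -/
def Wit {X : Type*} (E : X → X → Prop) (L j V x y : X) : Prop :=
  ∃ n a b a' b', NearI E L j n a b ∧ NearI E L j n a' b' ∧
    ∀ f s t, E f V → App E f x s → App E f y t →
      (App E L a s ∧ App E L s b) ∧ App E L a' t ∧ App E L t b'

theorem Wit.fo (i j k l m : ℕ) :
    FO.{0} (fun _ E v => Wit E (v i) (v j) (v k) (v l) (v m)) := by
  unfold Wit NearI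
  repeat' (with_reducible first | apply App.fo | apply FO.mem | apply FO.eq | apply FO.and | apply FO.imp | apply FO.all | apply FO.ex)

/-- Open sets of functions given by two conditions. -/
theorem exists_small {R L P Z z x y s t n : X hl} {j : X hl} {w : X hl}
    (hline : IsLine (E hl) w R L) (hP : IsOrdTop (E hl) R L P)
    {A : X hl} (hZ : ∀ f, E hl f Z → IsMap (E hl) f A R) (hz : E hl z Z)
    (hxA : E hl x A) (hyA : E hl y A)
    (hxs : App (E hl) z x s) (hyt : App (E hl) z y t)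
    (hs : Near (E hl) L j s n) (ht : Near (E hl) L j t n) :
    ∃ V, E hl z V ∧ IsOpenP (E hl) P Z V ∧ Wit (E hl) L j V x y := by
  obtain ⟨a, b, has, hsb, hab⟩ := hs
  obtain ⟨a', b', hat, htb, hab'⟩ := ht
  -- the set
  obtain ⟨V, hV⟩ := exists_sep (hl := hl) (Q := fun _ E v => ∀ s t, App E (v 0) (v 1) s →
      App E (v 0) (v 2) t →
      (App E (v 3) (v 4) s ∧ App E (v 3) s (v 5)) ∧ App E (v 3) (v 6) t ∧ App E (v 3) t (v 7))
    (by repeat' (with_reducible first | apply App.fo | apply FO.and | apply FO.imp | apply FO.all))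
    (cons x (cons y (cons L (cons a (cons b (cons a' (cons b' fun _ => x))))))) Z
  have hV' : ∀ f, E hl f V ↔ E hl f Z ∧ ∀ s t, App (E hl) f x s → App (E hl) f y t →
      (App (E hl) L a s ∧ App (E hl) L s b) ∧ App (E hl) L a' t ∧ App (E hl) L t b' := hV
  -- the intervals
  obtain ⟨U, hU⟩ := exists_sep (hl := hl) (Q := fun _ E v => App E (v 1) (v 2) (v 0) ∧
      App E (v 1) (v 0) (v 3))
    (by repeat' (with_reducible first | apply App.fo | apply FO.and))
    (cons L (cons a (cons b fun _ => x))) R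
  have hU' : ∀ z, E hl z U ↔ E hl z R ∧ App (E hl) L a z ∧ App (E hl) L z b := hU
  obtain ⟨W, hW⟩ := exists_sep (hl := hl) (Q := fun _ E v => App E (v 1) (v 2) (v 0) ∧
      App E (v 1) (v 0) (v 3))
    (by repeat' (with_reducible first | apply App.fo | apply FO.and))
    (cons L (cons a' (cons b' fun _ => x))) R
  have hW' : ∀ z, E hl z W ↔ E hl z R ∧ App (E hl) L a' z ∧ App (E hl) L z b' := hW
  have hUP : E hl U P := (hP U).2 ⟨fun z hz => ((hU' z).1 hz).1, fun z hz =>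
    ⟨a, b, ((hU' z).1 hz).2.1, ((hU' z).1 hz).2.2, fun z' h1 h2 =>
      (hU' z').2 ⟨(hline.2.1 _ _ h1).2, h1, h2⟩⟩⟩
  have hWP : E hl W P := (hP W).2 ⟨fun z hz => ((hW' z).1 hz).1, fun z hz =>
    ⟨a', b', ((hW' z).1 hz).2.1, ((hW' z).1 hz).2.2, fun z' h1 h2 =>
      (hW' z').2 ⟨(hline.2.1 _ _ h1).2, h1, h2⟩⟩⟩
  refine ⟨V, ?_, ⟨fun f hf => ((hV' f).1 hf).1, fun f hf => ?_⟩, ?_⟩
  · refine (hV' z).2 ⟨hz, fun s' t' hs' ht' => ?_⟩
    rw [(hZ z hz).uniq hs' hxs, (hZ z hz).uniq ht' hyt]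
    exact ⟨⟨has, hsb⟩, hat, htb⟩
  · obtain ⟨hfZ, hfV⟩ := (hV' f).1 hf
    obtain ⟨u, hu, _⟩ := (hZ f hfZ).2 x hxA
    obtain ⟨u', hu', _⟩ := (hZ f hfZ).2 y hyA
    obtain ⟨⟨h1, h2⟩, h3, h4⟩ := hfV u u' hu hu'
    obtain ⟨p1, hp1⟩ := exists_pair x U
    obtain ⟨p2, hp2⟩ := exists_pair y W
    obtain ⟨B, hB, hB'⟩ := exists_finset (hl := hl) (Finset.univ : Finset Bool)
      (fun i => if i then p1 else p2)
    have hB1 : E hl p1 B := (hB' p1).2 ⟨true, Finset.mem_univ _, rfl⟩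
    have hB2 : E hl p2 B := (hB' p2).2 ⟨false, Finset.mem_univ _, rfl⟩
    refine ⟨B, hB, fun b hb => ?_, fun g hg hsat => (hV' g).2 ⟨hg, fun s' t' hs' ht' => ?_⟩⟩
    · obtain ⟨i, _, rfl⟩ := (hB' b).1 hb
      cases i
      · exact ⟨y, W, u', hp2, hWP, hu', (hW' u').2 ⟨(hline.2.1 _ _ h3).2, h3, h4⟩⟩
      · exact ⟨x, U, u, hp1, hUP, hu, (hU' u).2 ⟨(hline.2.1 _ _ h1).2, h1, h2⟩⟩
    · obtain ⟨x', U', u1, hp, _, hu1, hu1'⟩ := hsat p1 hB1
      obtain ⟨rfl, rfl⟩ := isPair_inj hp1 hp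
      obtain ⟨y', W', u2, hp, _, hu2, hu2'⟩ := hsat p2 hB2
      obtain ⟨rfl, rfl⟩ := isPair_inj hp2 hp
      rw [(hZ g hg).uniq hs' hu1, (hZ g hg).uniq ht' hu2]
      exact ⟨((hU' u1).1 hu1').2, ((hW' u2).1 hu2').2⟩
  · exact ⟨n, a, b, a', b', hab, hab', fun f s' t' hf => ((hV' f).1 hf).2 s' t'⟩

end

end CPF
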