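import Pool.Agent.W_8dd142_h88.More
import Pool.Agent.W_c26d8e_h88.Notions

/-!
# A closed discrete sequence in the real line of the model (MP_c26d8e_gt)
-/

universe u

namespace CPF

open IM IM.BSet BVM TKF

variable {D : Type u} [CompleteBooleanAlgebra D]

/-- The sequence `n ↦ r n` is increasing and cofinal in the line `(R, L)`. -/
def SeqOK {lam : D → Prop} (hl : IsUF lam) (R L : BSet D) (r : ℕ → BSet D) : Prop :=
  (∀ n, App (E hl) (val hl L) (val hl (r n)) (val hl (r (n + 1)))) ∧
    ∀ x, E hl x (val hl R) → ∃ n y, E hl n (val hl (omB D)) ∧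
      App (E hl) (val hl (nseq r)) n y ∧ App (E hl) (val hl L) x y

/-- Names of a cofinal increasing sequence in the line. -/
theorem exists_cofinal (R L : BSet D) : ∃ r : ℕ → BSet D, ∀ (lam : D → Prop) (hl : IsUF lam),
    IsLine (E hl) (val hl (omB D)) (val hl R) (val hl L) → SeqOK hl R L r := by
  let a : D := tvq (IsLine.fo 0 1 2) (ps [omB D, R, L])
  have ha : ∀ (lam : D → Prop) (hl : IsUF lam),
      lam a ↔ IsLine (E hl) (val hl (omB D)) (val hl R) (val hl L) := fun lam hl => tvq_iff _ _ hl
  -- the dense set with its enumeration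
  obtain ⟨Q, hQ⟩ := exists_witness (Q := fun _ E v => Sub E (v 0) (v 2) ∧ IsCtb E (v 1) (v 0) ∧
      ∀ x y, App E (v 3) x y → ∃ q, E q (v 0) ∧ App E (v 3) x q ∧ App E (v 3) q y)
    (by repeat' (with_reducible first | apply IsCtb.fo | apply App.fo | apply Sub.fo | apply FO.mem | apply FO.and | apply FO.imp | apply FO.all | apply FO.ex))
    (ps [omB D, R, L]) a (by
      intro lam hl hlam
      obtain ⟨_, _, _, _, _, _, ⟨Q, hQ, hQ', hQ''⟩, _⟩ := (ha lam hl).1 hlam
      exact ⟨Q, hQ, hQ', hQ''⟩)
  have hQ1 : ∀ (lam : D → Prop) (hl : IsUF lam), lam a →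
      Sub (E hl) (val hl Q) (val hl R) := fun lam hl h => (hQ lam hl h).1
  have hQ2 : ∀ (lam : D → Prop) (hl : IsUF lam), lam a → ∀ x y, App (E hl) (val hl L) x y →
      ∃ q, E hl q (val hl Q) ∧ App (E hl) (val hl L) x q ∧
        App (E hl) (val hl L) q y := fun lam hl h => (hQ lam hl h).2.2
  obtain ⟨g, hg⟩ := exists_witness (Q := fun _ E v =>
      (∀ n x y, App E (v 0) n x → App E (v 0) n y → x = y) ∧
      ∀ x, E x (v 2) → ∃ n, E n (v 1) ∧ App E (v 0) n x)
    (by repeat' (with_reducible first | apply App.fo | apply FO.mem | apply FO.eq | apply FO.and | apply FO.imp | apply FO.all | apply FO.ex))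
    (ps [omB D, Q]) a (by
      intro lam hl hlam
      exact (hQ lam hl hlam).2.1)
  have hg1 : ∀ (lam : D → Prop) (hl : IsUF lam), lam a → ∀ n x y, App (E hl) (val hl g) n x →
      App (E hl) (val hl g) n y → x = y := fun lam hl h => (hg lam hl h).1
  have hg2 : ∀ (lam : D → Prop) (hl : IsUF lam), lam a → ∀ x, E hl x (val hl Q) →
      ∃ n, E hl n (val hl (omB D)) ∧ App (E hl) (val hl g) n x := fun lam hl h => (hg lam hl h).2
  obtain ⟨r0, hr0⟩ := exists_witness (Q := fun _ E v => E (v 0) (v 1)) (FO.mem 0 1)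
    (ps [R]) a (by
      intro lam hl hlam
      exact ((ha lam hl).1 hlam).1)
  have step : ∀ (n : ℕ) (z : BSet D),
      (∀ (lam : D → Prop) (hl : IsUF lam), lam a → E hl (val hl z) (val hl R)) →
      ∃ z' : BSet D, ∀ (lam : D → Prop) (hl : IsUF lam), lam a →
        App (E hl) (val hl L) (val hl z) (val hl z') ∧
        ∀ t, E hl t (val hl R) → App (E hl) (val hl g) (val hl (natB n)) t →
          App (E hl) (val hl L) t (val hl z') := by
    intro n z hz
    refine exists_witness (Q := fun _ E v => App E (v 1) (v 2) (v 0) ∧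
      ∀ t, E t (v 5) → App E (v 3) (v 4) t → App E (v 1) t (v 0))
      (by repeat' (with_reducible first | apply App.fo | apply FO.mem | apply FO.and | apply FO.imp | apply FO.all))
      (ps [L, z, g, natB n, R]) a ?_
    intro lam hl hlam
    obtain ⟨_, _, _, htr, htot, hend, _, _⟩ := (ha lam hl).1 hlam
    have hzR := hz lam hl hlam
    by_cases hex : ∃ t, E hl t (val hl R) ∧ App (E hl) (val hl g) (val hl (natB n)) t
    · obtain ⟨t, htR, ht⟩ := hex
      have htu : ∀ t', App (E hl) (val hl g) (val hl (natB n)) t' → t' = t := fun t' ht' =>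
        hg1 lam hl hlam _ _ _ ht' ht
      rcases htot _ _ hzR htR with h | h | h
      · obtain ⟨y, hy⟩ := (hend t htR).1
        exact ⟨y, by rw [← h] at hy; exact hy, fun t' _ ht' => by rw [htu t' ht']; exact hy⟩
      · obtain ⟨y, hy⟩ := (hend t htR).1
        exact ⟨y, htr _ _ _ h hy, fun t' _ ht' => by rw [htu t' ht']; exact hy⟩
      · obtain ⟨y, hy⟩ := (hend _ hzR).1
        exact ⟨y, hy, fun t' _ ht' => by rw [htu t' ht']; exact htr _ _ _ h hy⟩
    · obtain ⟨y, hy⟩ := (hend _ hzR).1
      exact ⟨y, hy, fun t' ht'R ht' => absurd ⟨t', ht'R, ht'⟩ hex⟩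
  -- recursion
  let S := {z : BSet D // ∀ (lam : D → Prop) (hl : IsUF lam), lam a → E hl (val hl z) (val hl R)}
  have hstep : ∀ (n : ℕ) (z : S), ∃ z' : S, ∀ (lam : D → Prop) (hl : IsUF lam), lam a →
        App (E hl) (val hl L) (val hl z.1) (val hl z'.1) ∧
        ∀ t, E hl t (val hl R) → App (E hl) (val hl g) (val hl (natB n)) t →
          App (E hl) (val hl L) t (val hl z'.1) := by
    intro n z
    obtain ⟨z', hz'⟩ := step n z.1 z.2
    refine ⟨⟨z', fun lam hl hlam => ?_⟩, hz'⟩
    exact (((ha lam hl).1 hlam).2.1 _ _ (hz' lam hl hlam).1).2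
  choose f hf using hstep
  let s : ℕ → S := fun n => Nat.rec ⟨r0, hr0⟩ (fun n z => f n z) n
  have hs : ∀ n, s (n + 1) = f n (s n) := fun n => rfl
  refine ⟨fun n => (s n).1, fun lam hl hline => ?_⟩
  have hlam := (ha lam hl).2 hline
  refine ⟨fun n => ?_, fun x hx => ?_⟩
  · exact (hf n (s n) lam hl hlam).1
  · obtain ⟨_, _, _, htr, htot, hend, _, _⟩ := hline
    obtain ⟨x', hx'⟩ := (hend x hx).1
    obtain ⟨z, hzQ, hxz, _⟩ := hQ2 lam hl hlam x x' hx'
    obtain ⟨n, hn, hnz⟩ := hg2 lam hl hlam z hzQ
    have hzR := hQ1 lam hl hlam z hzQ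
    have key : ∀ n, E hl n (val hl (omB D)) → ∀ z, E hl z (val hl R) →
        App (E hl) (val hl g) n z →
        ∃ m y, E hl m (val hl (omB D)) ∧ App (E hl) (val hl (nseq fun n => (s n).1)) m y ∧
          App (E hl) (val hl L) z y := by
      intro n hn
      refine all_nat (Q := fun _ E v => ∀ z, E z (v 5) → App E (v 1) (v 0) z →
        ∃ m y, E m (v 2) ∧ App E (v 3) m y ∧ App E (v 4) z y)
        (v := ps [g, omB D, nseq fun n => (s n).1, L, R])
        (by repeat' (with_reducible first | apply App.fo | apply FO.mem | apply FO.and | apply FO.imp | apply FO.all | apply FO.ex))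
        a ?_ hl hlam hn
      intro n lam hl hlam z hzR hz
      exact ⟨val hl (natB (n + 1)), val hl (s (n + 1)).1, E_nall_c (n + 1),
        app_nseq (fun n => (s n).1) (n + 1), (hf n (s n) lam hl hlam).2 z hzR hz⟩
    obtain ⟨m, y, hm, hmy, hzy⟩ := key n hn z hzR hnz
    exact ⟨m, y, hm, hmy, htr _ _ _ hxz hzy⟩

/-- The interval `(a, b)` contains at most the value of the sequence `j` at `n`. -/
def NearI {X : Type*} (E : X → X → Prop) (L j n a b : X) : Prop :=
  ∀ m y, App E j m y → App E L a y → App E L y b → m = n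

/-- Some open interval around `x` contains at most the value of the sequence `j` at `n`. -/
def Near {X : Type*} (E : X → X → Prop) (L j x n : X) : Prop :=
  ∃ a b, App E L a x ∧ App E L x b ∧ NearI E L j n a b

theorem Near.fo (i j k l : ℕ) : FO.{u} (fun _ E v => Near E (v i) (v j) (v k) (v l)) := by
  unfold Near NearI
  repeat' (with_reducible first | apply App.fo | apply FO.mem | apply FO.eq | apply FO.and | apply FO.imp | apply FO.all | apply FO.ex)

theorem seq_lt {R L : BSet D} {r : ℕ → BSet D} {lam : D → Prop} {hl : IsUF lam}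
    (hline : IsLine (E hl) (val hl (omB D)) (val hl R) (val hl L)) (hr : SeqOK hl R L r) {i j : ℕ}
    (hij : i < j) : App (E hl) (val hl L) (val hl (r i)) (val hl (r j)) := by
  induction j, hij using Nat.le_induction with
  | base => exact hr.1 i
  | succ j _ ih => exact hline.2.2.2.1 _ _ _ ih (hr.1 j)

/-- An interval between consecutive elements of the sequence. -/
theorem nearI_of {R L : BSet D} {r : ℕ → BSet D} {lam : D → Prop} (hl : IsUF lam)
    (hr : ∀ (lam : D → Prop) (hl : IsUF lam),
      IsLine (E hl) (val hl (omB D)) (val hl R) (val hl L) → SeqOK hl R L r)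
    (hline : IsLine (E hl) (val hl (omB D)) (val hl R) (val hl L)) {a b : X hl} {k : ℕ}
    (h1 : ∀ i, i + 1 = k → ¬ App (E hl) (val hl L) a (val hl (r i)))
    (h2 : ¬ App (E hl) (val hl L) (val hl (r (k + 1))) b) :
    NearI (E hl) (val hl L) (val hl (nseq r)) (val hl (natB k)) a b := by
  intro m y hmy hay hyb
  have hm : E hl m (val hl (omB D)) := ((isMap_nseq r).mem hmy).1
  obtain ⟨a, rfl⟩ := exists_name a
  obtain ⟨b, rfl⟩ := exists_name b
  -- the property of all indices
  have hfin : ∀ (lam : D → Prop) (hl : IsUF lam),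
      IsLine (E hl) (val hl (omB D)) (val hl R) (val hl L) →
      (∀ i, i + 1 = k → ¬ App (E hl) (val hl L) (val hl a) (val hl (r i))) →
      ¬ App (E hl) (val hl L) (val hl (r (k + 1))) (val hl b) → ∀ (i : ℕ) (y : X hl),
      App (E hl) (val hl (nseq r)) (val hl (natB i)) y → App (E hl) (val hl L) (val hl a) y →
      App (E hl) (val hl L) y (val hl b) → val hl (natB i) = val hl (natB k) := by
    intro lam hl hline h1 h2 i y hy hay hyb
    rw [app_nseq_uniq hy] at hay hyb
    have hs := hr lam hl hline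
    rcases lt_trichotomy i k with h | h | h
    · exfalso
      obtain ⟨k', rfl⟩ : ∃ k', k = k' + 1 := ⟨k - 1, by omega⟩
      apply h1 k' rfl
      rcases Nat.lt_or_ge i k' with h3 | h3
      · exact hline.2.2.2.1 _ _ _ hay (seq_lt hline hs h3)
      · have h4 : i = k' := by omega
        rw [← h4]
        exact hay
    · rw [h]
    · exfalso
      apply h2
      rcases Nat.lt_or_ge (k + 1) i with h3 | h3
      · exact hline.2.2.2.1 _ _ _ (seq_lt hline hs h3) hyb
      · have h4 : i = k + 1 := by omega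
        rw [← h4]
        exact hyb
  cases k with
  | zero =>
    have hP : FO.{u} (fun _ E v => IsLine E (v 0) (v 1) (v 2) ∧ ¬ App E (v 2) (v 3) (v 4)) := by
      repeat' (with_reducible first | apply IsLine.fo | apply App.fo | apply FO.and | apply FO.not)
    refine all_nat (Q := fun _ E v => ∀ y, App E (v 1) (v 0) y → App E (v 2) (v 3) y →
      App E (v 2) y (v 4) → v 0 = v 5) (v := ps [nseq r, L, a, b, natB 0])
      (by repeat' (with_reducible first | apply App.fo | apply FO.eq | apply FO.imp | apply FO.all))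
      (tvq hP (ps [omB D, R, L, r 1, b])) ?_ hl ?_ hm y hmy hay hyb
    · intro i lam hl hlam
      have h3 := (tvq_iff hP _ hl).1 hlam
      exact hfin lam hl h3.1 (fun i hi => absurd hi (Nat.succ_ne_zero i)) h3.2 i
    · exact (tvq_iff hP _ hl).2 ⟨hline, h2⟩
  | succ k =>
    have hP : FO.{u} (fun _ E v => IsLine E (v 0) (v 1) (v 2) ∧ ¬ App E (v 2) (v 3) (v 4) ∧
        ¬ App E (v 2) (v 5) (v 6)) := by
      repeat' (with_reducible first | apply IsLine.fo | apply App.fo | apply FO.and | apply FO.not)
    refine all_nat (Q := fun _ E v => ∀ y, App E (v 1) (v 0) y → App E (v 2) (v 3) y →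
      App E (v 2) y (v 4) → v 0 = v 5) (v := ps [nseq r, L, a, b, natB (k + 1)])
      (by repeat' (with_reducible first | apply App.fo | apply FO.eq | apply FO.imp | apply FO.all))
      (tvq hP (ps [omB D, R, L, r (k + 1 + 1), b, a, r k])) ?_ hl ?_ hm y hmy hay hyb
    · intro i lam hl hlam
      have h3 := (tvq_iff hP _ hl).1 hlam
      refine hfin lam hl h3.1 (fun i hi => ?_) h3.2.1 i
      have : i = k := by omega
      rw [this]
      exact h3.2.2
    · exact (tvq_iff hP _ hl).2 ⟨hline, h2, h1 k rfl⟩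

/-- Every point of the line has an open interval which contains at most one element of the
cofinal sequence. -/
theorem near_nseq {R L : BSet D} {r : ℕ → BSet D} {lam : D → Prop} (hl : IsUF lam)
    (hr : ∀ (lam : D → Prop) (hl : IsUF lam),
      IsLine (E hl) (val hl (omB D)) (val hl R) (val hl L) → SeqOK hl R L r)
    (hline : IsLine (E hl) (val hl (omB D)) (val hl R) (val hl L)) {x : X hl}
    (hx : E hl x (val hl R)) : ∃ n, E hl n (val hl (omB D)) ∧
      Near (E hl) (val hl L) (val hl (nseq r)) x n := by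
  obtain ⟨n, y, hn, hny, hxy⟩ := (hr lam hl hline).2 x hx
  obtain ⟨x, rfl⟩ := exists_name x
  refine all_nat (Q := fun _ E v => ∀ y, App E (v 1) (v 0) y → App E (v 2) (v 4) y →
      ∃ n, E n (v 3) ∧ Near E (v 2) (v 1) (v 4) n)
      (v := ps [nseq r, L, omB D, x])
      (by repeat' (with_reducible first | apply Near.fo | apply App.fo | apply FO.mem | apply FO.eq | apply FO.and | apply FO.imp | apply FO.all | apply FO.ex))
      (tvq (IsLine.fo 0 1 2) (ps [omB D, R, L])) ?_ hl ((tvq_iff _ _ hl).2 hline) hn y hny hxy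
  clear hn hny hxy hx hline y n hl lam
  intro n lam hl hlam y hy hxy
  have hline : IsLine (E hl) (val hl (omB D)) (val hl R) (val hl L) := (tvq_iff _ _ hl).1 hlam
  have hy : y = val hl (r n) := app_nseq_uniq hy
  have hxn : App (E hl) (val hl L) (val hl x) (val hl (r n)) := by
    rw [← hy]
    exact hxy
  have hs := hr lam hl hline
  have hirr := hline.2.2.1
  have htr := hline.2.2.2.1
  have htot := hline.2.2.2.2.1
  have hend := hline.2.2.2.2.2.1
  classical
  have hex : ∃ m, App (E hl) (val hl L) (val hl x) (val hl (r m)) := ⟨n, hxn⟩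
  obtain ⟨m, hm, hmin⟩ : ∃ m, App (E hl) (val hl L) (val hl x) (val hl (r m)) ∧
      ∀ i < m, ¬ App (E hl) (val hl L) (val hl x) (val hl (r i)) :=
    ⟨Nat.find hex, Nat.find_spec hex, fun i hi => Nat.find_min hex hi⟩
  have hxR := (hline.2.1 _ _ hxn).1
  cases m with
  | zero =>
    obtain ⟨a, ha'⟩ := (hend _ hxR).2
    refine ⟨val hl (natB 0), E_nall_c 0, a, _, ha', hm, nearI_of hl hr hline
      (fun i hi => absurd hi (Nat.succ_ne_zero i)) fun h => ?_⟩
    exact hirr _ (htr _ _ _ h (seq_lt hline hs Nat.zero_lt_one))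
  | succ k =>
    have hk := hmin k (Nat.lt_succ_self k)
    have hkR := (hline.2.1 _ _ (hs.1 k)).1
    rcases htot _ _ hxR hkR with h | h | h
    · -- `x = r k`
      cases k with
      | zero =>
        obtain ⟨a, ha'⟩ := (hend _ hxR).2
        exact ⟨val hl (natB 0), E_nall_c 0, a, _, ha', hm, nearI_of hl hr hline
          (fun i hi => absurd hi (Nat.succ_ne_zero i)) fun h => hirr _ h⟩
      | succ k =>
        refine ⟨val hl (natB (k + 1)), E_nall_c (k + 1), val hl (r k), _, ?_, hm,
          nearI_of hl hr hline (fun i hi => ?_) fun h => hirr _ h⟩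
        · change App (E hl) (val hl L) (val hl (r k)) (val hl x)
          rw [h]
          exact hs.1 k
        · have : i = k := by omega
          rw [this]
          exact hirr _
    · exact absurd h hk
    · refine ⟨val hl (natB k), E_nall_c k, val hl (r k), _, h, hm,
        nearI_of hl hr hline (fun i hi h' => ?_) fun h => hirr _ h⟩
      exact hirr _ (htr _ _ _ h' (seq_lt hline hs (by omega)))

end CPF
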