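import Pool.Agent.W_c26d8e_h88.Base
import Pool.Agent.W_c26d8e_h65.Line

/-!
# Set existence in the quotient, choosing indices, two compatible conditions (MP_c26d8e_gt)
-/

universe u

namespace CPF

open IM IM.BSet BVM TKF

section sets

variable {D : Type u} [CompleteBooleanAlgebra D] {lam : D → Prop} {hl : IsUF lam}

/-- The union of two sets. -/
theorem exists_un (a b : X hl) : ∃ c, ∀ z, E hl z c ↔ E hl z a ∨ E hl z b := by
  obtain ⟨p, hp⟩ := ax_pairing a b
  obtain ⟨c, hc⟩ := ax_union p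
  refine ⟨c, fun z => ?_⟩
  rw [hc]
  constructor
  · rintro ⟨y, hy, hz⟩
    rcases (hp y).1 hy with rfl | rfl
    · exact Or.inl hz
    · exact Or.inr hz
  · rintro (h | h)
    · exact ⟨a, (hp a).2 (Or.inl rfl), h⟩
    · exact ⟨b, (hp b).2 (Or.inr rfl), h⟩

theorem exists_pair (x y : X hl) : ∃ p, IsPair (E hl) p x y := by
  obtain ⟨x, rfl⟩ := exists_name x
  obtain ⟨y, rfl⟩ := exists_name y
  exact ⟨_, isPair_val.2 rfl⟩

/-- The product of two sets. -/
theorem exists_prod (a b : X hl) :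
    ∃ c, ∀ p, E hl p c ↔ ∃ x y, IsPair (E hl) p x y ∧ E hl x a ∧ E hl y b := by
  obtain ⟨u, hu⟩ := exists_un a b
  obtain ⟨P, hP⟩ := ax_powerset u
  obtain ⟨PP, hPP⟩ := ax_powerset P
  obtain ⟨c, hc⟩ := exists_sep (hl := hl)
    (Q := fun _ E v => ∃ x y, IsPair E (v 0) x y ∧ E x (v 1) ∧ E y (v 2))
    (by repeat' (with_reducible first | apply IsPair.fo | apply FO.mem | apply FO.and | apply FO.ex))
    (cons a (cons b fun _ => a)) PP
  refine ⟨c, fun p => ?_⟩
  rw [hc]
  constructor
  · rintro ⟨_, h⟩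
    exact h
  · rintro ⟨x, y, hp, hx, hy⟩
    refine ⟨?_, x, y, hp, hx, hy⟩
    obtain ⟨s, d, hs, hd, hp⟩ := hp
    rw [hPP]
    intro z hz
    rw [hP]
    intro t ht
    rw [hu]
    rcases (hp z).1 hz with rfl | rfl
    · rcases (hs t).1 ht with rfl | rfl
      · exact Or.inl hx
      · exact Or.inl hx
    · rcases (hd t).1 ht with rfl | rfl
      · exact Or.inl hx
      · exact Or.inr hy

/-- A first-order relation between the elements of two sets. -/
theorem exists_rel {Q : ∀ X : Type (u + 1), (X → X → Prop) → (ℕ → X) → Prop} (hQ : FO Q)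
    (v : ℕ → X hl) (a b : X hl) :
    ∃ f, (∀ p, E hl p f → ∃ x y, IsPair (E hl) p x y ∧ E hl x a ∧ E hl y b) ∧
      ∀ x y, App (E hl) f x y ↔ E hl x a ∧ E hl y b ∧ Q (X hl) (E hl) (cons x (cons y v)) := by
  obtain ⟨c, hc⟩ := exists_prod a b
  obtain ⟨φ, hφ⟩ := hQ
  obtain ⟨f, hf⟩ := exists_sep (hl := hl)
    (Q := fun X E v => ∃ x y, IsPair E (v 0) x y ∧
      Q X E (cons x (cons y fun n => v (n + 1))))
    (by
      refine FO.ex (Q := fun X E v x => ∃ y, IsPair E (v 0) x y ∧
        Q X E (cons x (cons y fun n => v (n + 1)))) ?_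
      refine FO.ex (Q := fun X E v y => IsPair E (v 1) (v 0) y ∧
        Q X E (cons (v 0) (cons y fun n => v (n + 2)))) ?_
      refine (IsPair.fo 2 1 0).and ?_
      have h := (FO.re (Q := Q) ⟨φ, hφ⟩ fun n => if n = 0 then 1 else if n = 1 then 0 else n + 1)
      refine h.congr fun X E v => ?_
      have : (fun n => v (if n = 0 then 1 else if n = 1 then 0 else n + 1)) =
          cons (v 1) (cons (v 0) fun n => v (n + 3)) := by
        funext n
        rcases n with _ | _ | n
        · rfl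
        · rfl
        · rfl
      rw [this]
      ) v c
  refine ⟨f, fun p hp => ?_, fun x y => ?_⟩
  · exact (hc p).1 ((hf p).1 hp).1
  · constructor
    · rintro ⟨p, hp, hpf⟩
      obtain ⟨h1, x', y', hp', hQ'⟩ := (hf p).1 hpf
      obtain ⟨x'', y'', hp'', hx, hy⟩ := (hc p).1 h1
      obtain ⟨rfl, rfl⟩ := isPair_inj hp hp'
      obtain ⟨rfl, rfl⟩ := isPair_inj hp hp''
      exact ⟨hx, hy, hQ'⟩
    · rintro ⟨hx, hy, hQ'⟩
      obtain ⟨p, hp⟩ := exists_pair x y
      exact ⟨p, hp, (hf p).2 ⟨(hc p).2 ⟨x, y, hp, hx, hy⟩, x, y, hp, hQ'⟩⟩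

end sets

section forcing

variable {P : Type u} [Preorder P]

/-- An element of a standard family which is forced to exist can be decided. -/
theorem Fc.index {ι : Type} {c : ι → BSet (RO P)}
    {Q : ∀ X : Type (u + 1), (X → X → Prop) → (ℕ → X) → Prop} (hQ : FO Q)
    {v : ℕ → BSet (RO P)} {p : P}
    (h : ∀ (lam : RO P → Prop) (hl : IsUF lam), lam (gen p) →
      ∃ x, E hl x (val hl (nall c)) ∧ Q (X hl) (E hl) (cons x fun n => val hl (v n))) :
    ∃ q ≤ p, ∃ i, Fc q Q (cons (c i) v) := by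
  have hQ' : FO (fun X E w => E (w 0) (w 1) ∧ Q X E (cons (w 0) fun n => w (n + 2))) := by
    refine (FO.mem 0 1).and ?_
    refine (FO.re hQ fun n => if n = 0 then 0 else n + 1).congr fun X E w => ?_
    have : (fun n => w (if n = 0 then 0 else n + 1)) = cons (w 0) fun n => w (n + 2) := by
      funext n
      rcases n with _ | n
      · rfl
      · rfl
    rw [this]
  obtain ⟨z, hz⟩ := exists_witness hQ' (cons (nall c) v) (gen p) (by
    intro lam hl hlam
    exact h lam hl hlam)
  have h2 : gen p ≤ ⨆ i, beq z (c i) := by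
    rw [le_iff_uf]
    intro lam hl hlam
    rw [← E_nall (hl := hl)]
    exact (hz lam hl hlam).1
  obtain ⟨q, hq, i, hi⟩ := exists_index h2
  refine ⟨q, hq, i, fun lam hl hlam => ?_⟩
  have h3 : val hl z = val hl (c i) := val_eq.2 (hl.mono hi hlam)
  have h4 := (hz lam hl (hl.mono (gen_mono hq) hlam)).2
  have h5 : (fun n => val hl (cons (c i) v n)) =
      cons (val hl z) fun n => val hl (v n) := by
    funext n
    cases n with
    | zero => exact h3.symm
    | succ n => rfl
  rw [h5]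
  exact h4

end forcing

variable {I : Type} [Idx I]

/-- Among uncountably many conditions two are compatible; moreover a given bound is respected. -/
theorem pick (p : I → Cond I) (c : I → ℕ) (B : I → I) : ∃ z z', c z = c z' ∧ B z < z' ∧
    ∃ r, r ≤ p z ∧ r ≤ p z' := by
  classical
  let t : I → Tri I 1 := fun z => (p z, fun _ => z, ∅)
  have ht : Function.Injective t := fun z z' h => by
    have := congrFun (congrArg (fun t : Tri I 1 => t.2.1) h) 0
    exact this
  choose D hD hDc hD' using fun n : ℕ => exists_countable (m := 1) {s | ∃ z, c z = n ∧ s = t z}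
  have hC : {z | ∃ n, t z ∈ D n}.Countable := by
    have : {z | ∃ n, t z ∈ D n} = t ⁻¹' ⋃ n, D n := by
      ext z
      simp
    rw [this]
    exact (Set.countable_iUnion hDc).preimage ht
  obtain ⟨g, hg⟩ := exists_bound (hC.image B)
  obtain ⟨t', ht', y, hy, h1, h2, _⟩ := hD' (c g) (t g) ⟨g, rfl, rfl⟩
  obtain ⟨z, hz, rfl⟩ := hD (c g) ht'
  refine ⟨z, g, hz, hg _ ⟨z, ⟨c g, ht'⟩, rfl⟩, ?_⟩
  exact ⟨⟨(p z).1 ∪ (p g).1, y, hy, Sat.union h2 h1⟩, Finset.subset_union_left,
    Finset.subset_union_right⟩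

end CPF
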